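import Pool.Agent.Q16.QHom.Example

/-!
# An open homomorphism of Hausdorff abelian groups without a quasihomomorphism section
-/

namespace Pool.Agent.Results.MP_9c76b4_al.NoQuasiSection

/-- A map `t : H → G` of topological groups is a quasihomomorphism: `t 1 = 1`, the map
`(h₁, h₂) ↦ t h₁ * t h₂ * (t (h₁ h₂))⁻¹` is continuous at `(1, 1)`, and for every `y` the map
`h ↦ t y * t h * (t y)⁻¹ * (t (y h y⁻¹))⁻¹` is continuous at `1`. -/
def IsQuasiHom {G H : Type} [Group G] [TopologicalSpace G] [Group H] [TopologicalSpace H]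
    (t : H → G) : Prop :=
  t 1 = 1 ∧
  ContinuousAt (fun p : H × H => t p.1 * t p.2 * (t (p.1 * p.2))⁻¹) (1, 1) ∧
  ∀ y : H, ContinuousAt (fun h : H => t y * t h * (t y)⁻¹ * (t (y * h * y⁻¹))⁻¹) 1

/-- There are Hausdorff abelian topological groups `G`, `H` and an open continuous surjective
homomorphism `f : G → H` such that no section of `f` is a quasihomomorphism. -/
theorem result :
    ∃ (G H : Type) (_ : CommGroup G) (_ : TopologicalSpace G) (_ : IsTopologicalGroup G)
      (_ : T2Space G) (_ : CommGroup H) (_ : TopologicalSpace H) (_ : IsTopologicalGroup H)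
      (_ : T2Space H) (f : G →* H),
      Continuous f ∧ IsOpenMap f ∧ Function.Surjective f ∧
        ∀ s : H → G, (∀ h, f (s h) = h) → ¬ IsQuasiHom s :=
  ⟨Q16.QHom.G, Q16.QHom.H, inferInstance, inferInstance, inferInstance, inferInstance,
    inferInstance, inferInstance, inferInstance, inferInstance, Q16.QHom.f,
    Q16.QHom.continuous_f, Q16.QHom.isOpenMap_f, Q16.QHom.surjective_f,
    fun s hs hq => Q16.QHom.no_section s hs hq.1 hq.2.1⟩

end Pool.Agent.Results.MP_9c76b4_al.NoQuasiSection
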